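import Mathlib

/-!
# Deformations of nilpotent Leibniz algebras (MP_dfe2cd_al): basic tools

`Alg n`: bilinear products on `ℂ^n`.  `Leib`: the (right) Leibniz identity.  `Nilp`: nilpotency.
`Rigid μ`: the isomorphism orbit of `μ` is Zariski-open in the variety of Leibniz products.
-/

set_option autoImplicit false

namespace Pool.H3VG

open Module

/-- products on `ℂ^n` -/
abbrev Alg (n : ℕ) : Type := (Fin n → ℂ) →ₗ[ℂ] (Fin n → ℂ) →ₗ[ℂ] (Fin n → ℂ)

/-- the Leibniz identity `(xy)z = (xz)y + x(yz)` -/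
def Leib {n : ℕ} (μ : Alg n) : Prop :=
  ∀ x y z : Fin n → ℂ, μ (μ x y) z = μ (μ x z) y + μ x (μ y z)

/-- all left normed products of some fixed length vanish -/
def Nilp {n : ℕ} (μ : Alg n) : Prop :=
  ∃ m : ℕ, ∀ x y : ℕ → (Fin n → ℂ),
    y 0 = x 0 → (∀ i : ℕ, y (i + 1) = μ (y i) (x (i + 1))) → y m = 0

/-- isomorphism of products -/
def Iso {n : ℕ} (μ ν : Alg n) : Prop :=
  ∃ g : (Fin n → ℂ) ≃ₗ[ℂ] (Fin n → ℂ), ∀ x y : Fin n → ℂ, ν (g x) (g y) = g (μ x y)

/-- the structure constants of a product -/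
noncomputable def sc {n : ℕ} (ν : Alg n) : Fin n × Fin n × Fin n → ℂ :=
  fun t => ν (Pi.single t.1 (1 : ℂ)) (Pi.single t.2.1 (1 : ℂ)) t.2.2

/-- the orbit of `μ` is Zariski-open in the variety of Leibniz products: its complement is the
common zero set (in the variety) of a set `P` of polynomials in the structure constants -/
def Rigid {n : ℕ} (μ : Alg n) : Prop :=
  ∃ P : Set (MvPolynomial (Fin n × Fin n × Fin n) ℂ),
    ∀ ν : Alg n, Leib ν → (¬ Iso μ ν ↔ ∀ p ∈ P, MvPolynomial.eval (sc ν) p = 0)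

/-- the right annihilator `{z : Az = 0}` -/
def Rann {n : ℕ} (μ : Alg n) : Submodule ℂ (Fin n → ℂ) where
  carrier := {z | ∀ x, μ x z = 0}
  add_mem' := by
    intro a b ha hb x
    rw [map_add, ha x, hb x, add_zero]
  zero_mem' := by intro x; rw [map_zero]
  smul_mem' := by
    intro c a ha x
    rw [map_smul, ha x, smul_zero]

theorem mem_rann {n : ℕ} {μ : Alg n} {z : Fin n → ℂ} : z ∈ Rann μ ↔ ∀ x, μ x z = 0 := Iff.rfl

theorem Iso.refl {n : ℕ} (μ : Alg n) : Iso μ μ := ⟨LinearEquiv.refl ℂ _, fun _ _ => rfl⟩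

/-- If a line of Leibniz products through `μ` meets the orbit of `μ` only in `μ`, then `μ` is not
rigid. -/
theorem not_rigid_of_line {n : ℕ} (μ θ : Alg n) (h0 : Leib μ)
    (hL : ∀ t : ℂ, Leib (μ + t • θ)) (hI : ∀ t : ℂ, t ≠ 0 → ¬ Iso μ (μ + t • θ)) :
    ¬ Rigid μ := by
  rintro ⟨P, hP⟩
  have h2 : ¬ ∀ p ∈ P, MvPolynomial.eval (sc μ) p = 0 := by
    intro h
    exact ((hP μ h0).mpr h) (Iso.refl μ)
  push Not at h2
  obtain ⟨p, hp, hpμ⟩ := h2
  set F : ℂ → ℂ := fun t => MvPolynomial.eval (sc (μ + t • θ)) p with hF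
  have hF0 : F 0 ≠ 0 := by
    rw [hF]
    simpa using hpμ
  have hFt : ∀ t : ℂ, t ≠ 0 → F t = 0 := fun t ht => (hP _ (hL t)).mp (hI t ht) p hp
  have hcont : Continuous F := by
    have hsc : Continuous (fun t : ℂ => sc (μ + t • θ)) := by
      refine continuous_pi fun i => ?_
      have : (fun t : ℂ => sc (μ + t • θ) i) = fun t => sc μ i + t * sc θ i := by
        funext t
        simp [sc]
      rw [this]
      exact continuous_const.add (continuous_id.mul continuous_const)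
    exact (MvPolynomial.continuous_eval p).comp hsc
  have hlim : Filter.Tendsto F (nhdsWithin 0 {0}ᶜ) (nhds (F 0)) :=
    hcont.continuousAt.tendsto.mono_left nhdsWithin_le_nhds
  have hev : F =ᶠ[nhdsWithin 0 {0}ᶜ] fun _ => (0 : ℂ) := by
    filter_upwards [self_mem_nhdsWithin] with t ht
    exact hFt t ht
  have hlim0 : Filter.Tendsto F (nhdsWithin 0 {0}ᶜ) (nhds 0) :=
    tendsto_const_nhds.congr' hev.symm
  exact hF0 (tendsto_nhds_unique hlim hlim0)

/-- right multiplication -/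
noncomputable def rm {n : ℕ} (μ : Alg n) (y : Fin n → ℂ) : (Fin n → ℂ) →ₗ[ℂ] (Fin n → ℂ) :=
  μ.flip y

@[simp] theorem rm_apply {n : ℕ} (μ : Alg n) (y x : Fin n → ℂ) : rm μ y x = μ x y := rfl

theorem rm_nilp {n : ℕ} {μ : Alg n} (h : Nilp μ) (y : Fin n → ℂ) : IsNilpotent (rm μ y) := by
  obtain ⟨m, hm⟩ := h
  refine ⟨m, ?_⟩
  refine LinearMap.ext fun a => ?_
  have h := hm (fun i => if i = 0 then a else y) (fun i => ((rm μ y) ^ i) a) (by simp) ?_
  · simpa using h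
  · intro i
    simp only [Nat.add_eq_zero_iff, one_ne_zero, and_false, if_false]
    rw [pow_succ', Module.End.mul_apply, rm_apply]

theorem trace_rm {n : ℕ} {μ : Alg n} (h : Nilp μ) (y : Fin n → ℂ) :
    LinearMap.trace ℂ (Fin n → ℂ) (rm μ y) = 0 :=
  (LinearMap.isNilpotent_trace_of_isNilpotent (rm_nilp h y)).eq_zero

/-- traces of right multiplications vanish for every product isomorphic to a nilpotent one -/
theorem trace_rm_iso {n : ℕ} {μ ν : Alg n} (h : Nilp μ) (hI : Iso μ ν) (y : Fin n → ℂ) :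
    LinearMap.trace ℂ (Fin n → ℂ) (rm ν y) = 0 := by
  obtain ⟨g, hg⟩ := hI
  have h1 : rm ν y = g.conj (rm μ (g.symm y)) := by
    refine LinearMap.ext fun a => ?_
    rw [LinearEquiv.conj_apply_apply, rm_apply, rm_apply, ← hg]
    simp
  rw [h1, LinearMap.trace_conj', trace_rm h]

/-- the product `(x,y) ↦ lam y • D x` -/
noncomputable def tw {n : ℕ} (lam : (Fin n → ℂ) →ₗ[ℂ] ℂ)
    (D : (Fin n → ℂ) →ₗ[ℂ] (Fin n → ℂ)) : Alg n :=
  LinearMap.mk₂ ℂ (fun x y => lam y • D x)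
    (fun x x' y => by rw [map_add, smul_add])
    (fun c x y => by rw [map_smul, smul_comm])
    (fun x y y' => by rw [map_add, add_smul])
    (fun c x y => by rw [map_smul, smul_eq_mul, mul_smul])

theorem tw_apply {n : ℕ} (lam : (Fin n → ℂ) →ₗ[ℂ] ℂ) (D : (Fin n → ℂ) →ₗ[ℂ] (Fin n → ℂ))
    (x y : Fin n → ℂ) : tw lam D x y = lam y • D x := rfl

/-- the basic deformation -/
theorem leib_deform {n : ℕ} {μ : Alg n} (h : Leib μ) (lam : (Fin n → ℂ) →ₗ[ℂ] ℂ)
    (e : Fin n → ℂ) (he : lam e = 1) (D : (Fin n → ℂ) →ₗ[ℂ] (Fin n → ℂ))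
    (hD : ∀ x, D x ∈ Rann μ) (hlD : ∀ x, lam (D x) = 0) (hl : ∀ x y, lam (μ x y) = 0)
    (hc : ∀ x y, lam y = 0 → D (μ x y) = μ (D x) y) (t : ℂ) :
    Leib (μ + t • tw lam D) := by
  intro x y z
  have hD' : ∀ a b, μ a (D b) = 0 := fun a b => hD b a
  have hf : ∀ x y, μ (D x) y - D (μ x y) = lam y • (μ (D x) e - D (μ x e)) := by
    intro x y
    have h1 : lam (y - lam y • e) = 0 := by
      rw [map_sub, map_smul, he, smul_eq_mul, mul_one, sub_self]
    have h2 := hc x _ h1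
    simp only [map_sub, map_smul] at h2
    rw [smul_sub]
    have h3 : μ (D x) y - D (μ x y) - (lam y • μ (D x) e - lam y • D (μ x e))
        = -(D (μ x y) - lam y • D (μ x e) - (μ (D x) y - lam y • μ (D x) e)) := by abel
    rw [← sub_eq_zero, h3, h2, sub_self, neg_zero]
  have e1 := hf x y
  have e2 := hf x z
  have hL := h x y z
  simp only [LinearMap.add_apply, LinearMap.smul_apply, tw_apply, map_add, map_smul, hD', hlD, hl,
    smul_zero, add_zero, smul_add, zero_smul]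
  rw [hL]
  have e3 : μ (D x) y = D (μ x y) + lam y • (μ (D x) e - D (μ x e)) := by rw [← e1]; abel
  have e4 : μ (D x) z = D (μ x z) + lam z • (μ (D x) e - D (μ x e)) := by rw [← e2]; abel
  rw [e3, e4]
  module

/-- there is a line of Leibniz products through `μ`, non-nilpotent away from `μ` -/
def Defo {n : ℕ} (μ : Alg n) : Prop :=
  ∃ θ : Alg n, (∀ t : ℂ, Leib (μ + t • θ)) ∧ ∀ t : ℂ, t ≠ 0 → ¬ Nilp (μ + t • θ)

theorem defo_of_D {n : ℕ} {μ : Alg n} (h : Leib μ) (hN : Nilp μ)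
    (lam : (Fin n → ℂ) →ₗ[ℂ] ℂ) (e : Fin n → ℂ) (he : lam e = 1)
    (D : (Fin n → ℂ) →ₗ[ℂ] (Fin n → ℂ))
    (hD : ∀ x, D x ∈ Rann μ) (hlD : ∀ x, lam (D x) = 0) (hl : ∀ x y, lam (μ x y) = 0)
    (hc : ∀ x y, lam y = 0 → D (μ x y) = μ (D x) y)
    (htr : LinearMap.trace ℂ (Fin n → ℂ) D ≠ 0) : Defo μ := by
  refine ⟨tw lam D, leib_deform h lam e he D hD hlD hl hc, ?_⟩
  intro t ht hI
  have h1 := trace_rm hI e
  have h2 : rm (μ + t • tw lam D) e = rm μ e + t • D := by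
    refine LinearMap.ext fun x => ?_
    simp only [rm_apply, LinearMap.add_apply, LinearMap.smul_apply, tw_apply, he, one_smul]
  rw [h2, map_add, map_smul, trace_rm hN, zero_add, smul_eq_mul] at h1
  rcases mul_eq_zero.mp h1 with h3 | h3
  · exact ht h3
  · exact htr h3

theorem nilp_iso {n : ℕ} {μ ν : Alg n} (h : Nilp μ) (hI : Iso μ ν) : Nilp ν := by
  obtain ⟨m, hm⟩ := h
  obtain ⟨g, hg⟩ := hI
  refine ⟨m, fun x y h0 h1 => ?_⟩
  have h2 := hm (fun i => g.symm (x i)) (fun i => g.symm (y i)) (by simp only [h0]) (fun i => by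
    apply g.injective
    rw [← hg]
    simp only [LinearEquiv.apply_symm_apply]
    exact h1 i)
  exact (map_eq_zero_iff g.symm g.symm.injective).mp h2

theorem not_rigid_of_defo {n : ℕ} {μ : Alg n} (h : Leib μ) (hN : Nilp μ) (hd : Defo μ) :
    ¬ Rigid μ := by
  obtain ⟨θ, h1, h2⟩ := hd
  exact not_rigid_of_line μ θ h h1 fun t ht hI => h2 t ht (nilp_iso hN hI)

end Pool.H3VG
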