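import Mathlib

/-!
# An operator with nonzero trace in the commutant of a nilpotent operator, with image in a given
submodule `N` strictly larger than the range.
-/

set_option autoImplicit false

namespace Pool.H3VG

open Module Finset

variable {A : Type} [AddCommGroup A] [Module ℂ A] [FiniteDimensional ℂ A]

private noncomputable def dd (Y : A →ₗ[ℂ] A) (φ : A →ₗ[ℂ] ℂ) (z : A) (k : ℕ) : A →ₗ[ℂ] A :=
  ∑ j ∈ range k, (φ ∘ₗ (Y ^ (k - 1 - j))).smulRight ((Y ^ j) z)

private lemma dd_apply (Y : A →ₗ[ℂ] A) (φ : A →ₗ[ℂ] ℂ) (z : A) (k : ℕ) (x : A) :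
    dd Y φ z k x = ∑ j ∈ range k, φ ((Y ^ (k - 1 - j)) x) • (Y ^ j) z := by
  unfold dd
  simp [LinearMap.sum_apply]

private lemma trace_smulRight' (f : A →ₗ[ℂ] ℂ) (v : A) :
    LinearMap.trace ℂ A (f.smulRight v) = f v := by
  have h : f.smulRight v = dualTensorHom ℂ A A (f ⊗ₜ[ℂ] v) := by
    refine LinearMap.ext fun x => ?_
    rw [dualTensorHom_apply, LinearMap.smulRight_apply]
  rw [h, LinearMap.trace_eq_contract_apply, contractLeft_apply]

theorem comm_trace (Y : A →ₗ[ℂ] A) (hY : IsNilpotent Y) (N : Submodule ℂ A)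
    (hYN : ∀ x, Y x ∈ N) (z₀ : A) (hz₀ : z₀ ∈ N) (hz₀' : z₀ ∉ LinearMap.range Y) :
    ∃ D : A →ₗ[ℂ] A, (∀ x, D x ∈ N) ∧ (∀ x, D (Y x) = Y (D x)) ∧
      LinearMap.trace ℂ A D ≠ 0 := by
  classical
  obtain ⟨m, hm⟩ := hY
  have hex : ∃ k, ∃ z ∈ N, z ∉ LinearMap.range Y ∧ (Y ^ k) z = 0 :=
    ⟨m, z₀, hz₀, hz₀', by rw [hm]; rfl⟩
  obtain ⟨z, hzN, hzY, hzk⟩ := Nat.find_spec hex
  set k := Nat.find hex with hk
  have hk0 : k ≠ 0 := by
    intro h
    rw [h, pow_zero] at hzk
    exact hzY (by rw [show z = 0 from hzk]; exact Submodule.zero_mem _)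
  obtain ⟨l, hl⟩ := Nat.exists_eq_succ_of_ne_zero hk0
  have hlast : (Y ^ l) z ∉ LinearMap.range (Y ^ k) := by
    rintro ⟨w, hw⟩
    have hmin := Nat.find_min hex (m := l) (by omega)
    apply hmin
    refine ⟨z - Y w, N.sub_mem hzN (hYN w), ?_, ?_⟩
    · intro h
      apply hzY
      have : z = (z - Y w) + Y w := by abel
      rw [this]
      exact Submodule.add_mem _ h (LinearMap.mem_range_self Y w)
    · rw [map_sub, ← Module.End.mul_apply, ← pow_succ, ← Nat.succ_eq_add_one, ← hl, hw, sub_self]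
  obtain ⟨φ, hφ, hφk⟩ := Submodule.exists_le_ker_of_notMem hlast
  have hφk' : ∀ x, φ ((Y ^ k) x) = 0 := fun x => hφk (LinearMap.mem_range_self _ x)
  refine ⟨dd Y φ z k, ?_, ?_, ?_⟩
  · intro x
    rw [dd_apply]
    refine Submodule.sum_mem _ fun j _ => Submodule.smul_mem _ _ ?_
    rcases Nat.eq_zero_or_pos j with h | h
    · rw [h, pow_zero]; exact hzN
    · obtain ⟨i, rfl⟩ := Nat.exists_eq_succ_of_ne_zero h.ne'
      rw [Nat.succ_eq_add_one, pow_succ', Module.End.mul_apply]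
      exact hYN _
  · intro x
    rw [dd_apply, dd_apply, map_sum, hl]
    have e1 : ∑ j ∈ range l.succ, φ ((Y ^ (l.succ - 1 - j)) (Y x)) • (Y ^ j) z
        = ∑ j ∈ range l, φ ((Y ^ (l - j)) x) • (Y ^ (j + 1)) z := by
      rw [Nat.succ_eq_add_one, Finset.sum_range_succ']
      have h0 : φ ((Y ^ (l + 1 - 1 - 0)) (Y x)) = 0 := by
        have : (Y ^ (l + 1 - 1 - 0)) (Y x) = (Y ^ k) x := by
          rw [hl, Nat.succ_eq_add_one, pow_succ, Module.End.mul_apply]
          simp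
        rw [this, hφk']
      rw [h0, zero_smul, add_zero]
      refine Finset.sum_congr rfl fun j hj => ?_
      have hj' : j < l := mem_range.mp hj
      have : (Y ^ (l + 1 - 1 - (j + 1))) (Y x) = (Y ^ (l - j)) x := by
        have h1 : l - j = (l + 1 - 1 - (j + 1)) + 1 := by omega
        rw [h1, pow_succ, Module.End.mul_apply]
      rw [this]
    have e2 : ∑ j ∈ range l.succ, Y (φ ((Y ^ (l.succ - 1 - j)) x) • (Y ^ j) z)
        = ∑ j ∈ range l, φ ((Y ^ (l - j)) x) • (Y ^ (j + 1)) z := by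
      rw [Nat.succ_eq_add_one, Finset.sum_range_succ]
      have h0 : Y (φ ((Y ^ (l + 1 - 1 - l)) x) • (Y ^ l) z) = 0 := by
        rw [map_smul, ← Module.End.mul_apply, ← pow_succ', ← Nat.succ_eq_add_one, ← hl, hzk,
          smul_zero]
      rw [h0, add_zero]
      refine Finset.sum_congr rfl fun j hj => ?_
      rw [map_smul, pow_succ', Module.End.mul_apply]
      rfl
    rw [e1, e2]
  · unfold dd
    rw [map_sum]
    have h1 : ∀ j ∈ range k, LinearMap.trace ℂ A ((φ ∘ₗ (Y ^ (k - 1 - j))).smulRight ((Y ^ j) z))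
        = φ ((Y ^ l) z) := by
      intro j hj
      have hj' : j < k := mem_range.mp hj
      rw [trace_smulRight', LinearMap.comp_apply, ← Module.End.mul_apply, ← pow_add]
      congr 3
      omega
    rw [Finset.sum_congr rfl h1, Finset.sum_const, card_range, nsmul_eq_mul]
    exact mul_ne_zero (by exact_mod_cast hk0) hφ

end Pool.H3VG
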