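import Mathlib

/-!
# Pencils of commuting nilpotent operators

`X`, `Y` commuting, `X` nilpotent, `N` a subspace with `N + ⟨a,b⟩` everything, such that
`X` and all `Y - s X` have range `N`.  Then `dim N ≤ 1`.
-/

set_option autoImplicit false

namespace Pool.H3VG

open Module

variable {A : Type} [AddCommGroup A] [Module ℂ A] [FiniteDimensional ℂ A]

private lemma eigen2 (c11 c12 c21 c22 : ℂ) : ∃ s u1 u2 : ℂ, (u1 ≠ 0 ∨ u2 ≠ 0) ∧
    u1 * c11 + u2 * c21 = s * u1 ∧ u1 * c12 + u2 * c22 = s * u2 := by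
  obtain ⟨s, hs⟩ := Module.End.exists_eigenvalue (Matrix.toLin' !![c11, c21; c12, c22])
  obtain ⟨u, hu⟩ := hs.exists_hasEigenvector
  have h1 := hu.apply_eq_smul
  have h0 := hu.2
  refine ⟨s, u 0, u 1, ?_, ?_, ?_⟩
  · by_contra h
    push Not at h
    apply h0
    ext i
    fin_cases i
    · exact h.1
    · exact h.2
  · have := congrFun h1 0
    simp [Matrix.toLin'_apply, Matrix.mulVec, dotProduct, Fin.sum_univ_two] at this
    linear_combination this
  · have := congrFun h1 1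
    simp [Matrix.toLin'_apply, Matrix.mulVec, dotProduct, Fin.sum_univ_two] at this
    linear_combination this

theorem pencil (X Y : A →ₗ[ℂ] A) (hX : IsNilpotent X) (hXY : ∀ x, X (Y x) = Y (X x))
    (N : Submodule ℂ A) (a b : A) (hab : ∀ x : A, ∃ ν ∈ N, ∃ c d : ℂ, x = ν + c • a + d • b)
    (rX : ∀ x, X x ∈ N) (rX' : ∀ v ∈ N, ∃ x, X x = v)
    (rY : ∀ x, Y x ∈ N) (rY' : ∀ v ∈ N, ∃ x, Y x = v)
    (rT : ∀ s : ℂ, ∀ v ∈ N, ∃ x, Y x - s • X x = v) : finrank ℂ N ≤ 1 := by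
  -- `P = X N = Y N`
  set P : Submodule ℂ A := N.map X with hP
  have hPX : ∀ v ∈ N, X v ∈ P := fun v hv => Submodule.mem_map_of_mem hv
  have hPY : ∀ v ∈ N, Y v ∈ P := by
    intro v hv
    obtain ⟨x, rfl⟩ := rX' v hv
    rw [← hXY]
    exact hPX _ (rY x)
  have hPY' : ∀ v ∈ P, ∃ q ∈ N, Y q = v := by
    intro v hv
    obtain ⟨q, hq, rfl⟩ := Submodule.mem_map.mp hv
    obtain ⟨x, rfl⟩ := rY' q hq
    exact ⟨X x, rX x, (hXY x).symm⟩
  -- `X u` modulo `P`
  have hXmod : ∀ v ∈ N, ∃ p ∈ P, ∃ c d : ℂ, v = p + c • X a + d • X b := by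
    intro v hv
    obtain ⟨x, rfl⟩ := rX' v hv
    obtain ⟨ν, hν, c, d, rfl⟩ := hab x
    exact ⟨X ν, hPX ν hν, c, d, by simp only [map_add, map_smul]⟩
  -- S2
  have S2 : ∃ w ∈ N, ∀ v ∈ N, ∃ p ∈ P, ∃ d : ℂ, v = p + d • w := by
    obtain ⟨p1, hp1, c11, c12, e1⟩ := hXmod _ (rY a)
    obtain ⟨p2, hp2, c21, c22, e2⟩ := hXmod _ (rY b)
    obtain ⟨s, u1, u2, hu, q1, q2⟩ := eigen2 c11 c12 c21 c22
    set T : A →ₗ[ℂ] A := Y - s • X with hT
    have hTx : ∀ x, T x = Y x - s • X x := fun x => rfl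
    have hTN : ∀ v ∈ N, T v ∈ P := fun v hv => by
      rw [hTx]; exact P.sub_mem (hPY v hv) (P.smul_mem _ (hPX v hv))
    have hTN' : ∀ x, T x ∈ N := fun x => by
      rw [hTx]; exact N.sub_mem (rY x) (N.smul_mem _ (rX x))
    have hx : T (u1 • a + u2 • b) ∈ P := by
      have : T (u1 • a + u2 • b) = u1 • p1 + u2 • p2 := by
        rw [hTx]
        simp only [map_add, map_smul, e1, e2]
        have e3 : u1 • (p1 + c11 • X a + c12 • X b) + u2 • (p2 + c21 • X a + c22 • X b)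
            - s • (u1 • X a + u2 • X b)
            = u1 • p1 + u2 • p2 + (u1 * c11 + u2 * c21 - s * u1) • X a
              + (u1 * c12 + u2 * c22 - s * u2) • X b := by module
        rw [e3, q1, q2, sub_self, sub_self, zero_smul, zero_smul, add_zero, add_zero]
      rw [this]
      exact P.add_mem (P.smul_mem _ hp1) (P.smul_mem _ hp2)
    rcases hu with hu | hu
    · refine ⟨T b, hTN' b, fun v hv => ?_⟩
      obtain ⟨x, rfl⟩ := rT s v hv
      obtain ⟨ν, hν, c, d, rfl⟩ := hab x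
      refine ⟨T ν + (c / u1) • T (u1 • a + u2 • b), P.add_mem (hTN ν hν) (P.smul_mem _ hx),
        d - (c / u1) * u2, ?_⟩
      rw [← hTx]
      simp only [map_add, map_smul, smul_add, smul_smul]
      rw [div_mul_cancel₀ c hu]
      module
    · refine ⟨T a, hTN' a, fun v hv => ?_⟩
      obtain ⟨x, rfl⟩ := rT s v hv
      obtain ⟨ν, hν, c, d, rfl⟩ := hab x
      refine ⟨T ν + (d / u2) • T (u1 • a + u2 • b), P.add_mem (hTN ν hν) (P.smul_mem _ hx),
        c - (d / u2) * u1, ?_⟩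
      rw [← hTx]
      simp only [map_add, map_smul, smul_add, smul_smul]
      rw [div_mul_cancel₀ d hu]
      module
  obtain ⟨w, hwN, hw⟩ := S2
  -- S3
  obtain ⟨q, hq, hqw⟩ := Submodule.mem_map.mp (hPY w hwN)
  obtain ⟨p, hp, c, rfl⟩ := hw q hq
  have hYP : ∀ v ∈ P, ∃ v' ∈ P, X v' = Y v := by
    intro v hv
    obtain ⟨q, hq, rfl⟩ := Submodule.mem_map.mp hv
    exact ⟨Y q, hPY q hq, hXY q⟩
  have S3 : ∀ v ∈ P, ∃ v' ∈ P, X v' = v := by
    intro v hv
    obtain ⟨q', hq', rfl⟩ := Submodule.mem_map.mp hv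
    obtain ⟨r, rfl⟩ := rT c q' hq'
    obtain ⟨p', hp', d, hd⟩ := hw (X r) (rX r)
    obtain ⟨p'', hp'', hY⟩ := hYP p' hp'
    refine ⟨p'' - c • p' + d • p, P.add_mem (P.sub_mem hp'' (P.smul_mem _ hp'))
      (P.smul_mem _ hp), ?_⟩
    have e1 : X (Y r - c • X r) = Y (X r) - c • X (X r) := by
      rw [map_sub, map_smul, hXY]
    rw [e1, hd]
    simp only [map_add, map_sub, map_smul, hY]
    have e2 : Y w = X p + c • X w := by
      rw [← hqw]; simp only [map_add, map_smul]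
    rw [e2]
    module
  -- S4
  have S4 : ∀ v ∈ P, v = 0 := by
    obtain ⟨m, hm⟩ := hX
    have h : ∀ k : ℕ, ∀ v ∈ P, ∃ v' ∈ P, (X ^ k) v' = v := by
      intro k
      induction k with
      | zero => intro v hv; exact ⟨v, hv, rfl⟩
      | succ k ih =>
        intro v hv
        obtain ⟨v1, hv1, rfl⟩ := ih v hv
        obtain ⟨v2, hv2, rfl⟩ := S3 v1 hv1
        exact ⟨v2, hv2, by rw [pow_succ, Module.End.mul_apply]⟩
    intro v hv
    obtain ⟨v', -, rfl⟩ := h m v hv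
    rw [hm]
    rfl
  have hN : N ≤ Submodule.span ℂ {w} := by
    intro v hv
    obtain ⟨p, hp, d, rfl⟩ := hw v hv
    rw [S4 p hp, zero_add]
    exact Submodule.smul_mem _ _ (Submodule.mem_span_singleton_self w)
  exact (Submodule.finrank_mono hN).trans ((finrank_span_le_card ({w} : Set A)).trans (by simp))

end Pool.H3VG
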