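import Pool.Agent.H3.VG.Base
import Pool.Agent.H3.VG.Comm
import Pool.Agent.H3.VG.Pencil

/-!
# Nilpotent Leibniz algebras with `dim A / Rann(A) ≤ 2`
-/

set_option autoImplicit false

namespace Pool.H3VG

open Module

variable {n : ℕ} {μ : Alg n}

theorem sq_mem (h : Leib μ) (y : Fin n → ℂ) : μ y y ∈ Rann μ := by
  intro x
  have := h x y y
  exact (add_eq_left.mp this.symm)

theorem symm_mem (h : Leib μ) (y z : Fin n → ℂ) : μ y z + μ z y ∈ Rann μ := by
  have h1 := sq_mem h (y + z)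
  have h2 := sq_mem h y
  have h3 := sq_mem h z
  have e : μ y z + μ z y = μ (y + z) (y + z) - μ y y - μ z z := by
    simp only [map_add, LinearMap.add_apply]; abel
  rw [e]
  exact (Rann μ).sub_mem ((Rann μ).sub_mem h1 h2) h3

theorem rann_mul (h : Leib μ) {v : Fin n → ℂ} (hv : v ∈ Rann μ) (y : Fin n → ℂ) :
    μ v y ∈ Rann μ := by
  intro x
  have := h x v y
  rw [hv x, map_zero, LinearMap.zero_apply, hv (μ x y), zero_add] at this
  exact this.symm

/-- iterating a congruence modulo `Rann` -/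
theorem iter_mem (h : Leib μ) (hN : Nilp μ) (y w : Fin n → ℂ) (c : ℂ)
    (hw : w - c • μ w y ∈ Rann μ) : w ∈ Rann μ := by
  have hk : ∀ k : ℕ, w - c ^ k • ((rm μ y) ^ k) w ∈ Rann μ := by
    intro k
    induction k with
    | zero => simp
    | succ k ih =>
      have h1 := rann_mul h ih y
      have h2 : w - c ^ (k + 1) • ((rm μ y) ^ (k + 1)) w
          = (w - c • μ w y) + c • μ (w - c ^ k • ((rm μ y) ^ k) w) y := by
        rw [pow_succ' (rm μ y), Module.End.mul_apply, rm_apply]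
        simp only [map_sub, map_smul, LinearMap.sub_apply, LinearMap.smul_apply]
        rw [pow_succ]
        module
      rw [h2]
      exact (Rann μ).add_mem hw ((Rann μ).smul_mem _ h1)
  obtain ⟨m, hm⟩ := rm_nilp hN y
  have := hk m
  rwa [hm, LinearMap.zero_apply, smul_zero, sub_zero] at this

/-- same, with `w y = c w` modulo `Rann`, `c ≠ 0` -/
theorem iter_mem' (h : Leib μ) (hN : Nilp μ) (y w : Fin n → ℂ) (c : ℂ) (hc : c ≠ 0)
    (hw : μ w y - c • w ∈ Rann μ) : w ∈ Rann μ := by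
  refine iter_mem h hN y w c⁻¹ ?_
  have e : w - c⁻¹ • μ w y = (-c⁻¹) • (μ w y - c • w) := by
    rw [smul_sub, smul_smul, neg_mul, inv_mul_cancel₀ hc]
    module
  rw [e]
  exact (Rann μ).smul_mem _ hw

/-- if `finrank (Rann μ) + 2 ≥ n` and `a, b` are independent modulo `Rann μ` they span
everything modulo `Rann μ` -/
theorem span_two (N : Submodule ℂ (Fin n → ℂ)) (hN : n ≤ finrank ℂ N + 2) (a b : Fin n → ℂ)
    (ha : a ∉ N) (hb : b ∉ N ⊔ Submodule.span ℂ {a}) :
    ∀ x : Fin n → ℂ, ∃ ν ∈ N, ∃ c d : ℂ, x = ν + c • a + d • b := by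
  have h1 : N < N ⊔ Submodule.span ℂ {a} := by
    refine lt_of_le_of_ne le_sup_left ?_
    intro h
    apply ha
    rw [h]
    exact Submodule.mem_sup_right (Submodule.mem_span_singleton_self a)
  have h2 : N ⊔ Submodule.span ℂ {a} < (N ⊔ Submodule.span ℂ {a}) ⊔ Submodule.span ℂ {b} := by
    refine lt_of_le_of_ne le_sup_left ?_
    intro h
    apply hb
    rw [h]
    exact Submodule.mem_sup_right (Submodule.mem_span_singleton_self b)
  have f1 := Submodule.finrank_lt_finrank_of_lt h1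
  have f2 := Submodule.finrank_lt_finrank_of_lt h2
  have f3 : finrank ℂ (Fin n → ℂ) = n := by simp
  have h3 : (N ⊔ Submodule.span ℂ {a}) ⊔ Submodule.span ℂ {b} = ⊤ := by
    apply Submodule.eq_top_of_finrank_eq
    have := Submodule.finrank_le ((N ⊔ Submodule.span ℂ {a}) ⊔ Submodule.span ℂ {b})
    omega
  intro x
  have hx : x ∈ (N ⊔ Submodule.span ℂ {a}) ⊔ Submodule.span ℂ {b} := by rw [h3]; trivial
  obtain ⟨v, hv, u, hu, rfl⟩ := Submodule.mem_sup.mp hx
  obtain ⟨ν, hν, v', hv', rfl⟩ := Submodule.mem_sup.mp hv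
  obtain ⟨c, rfl⟩ := Submodule.mem_span_singleton.mp hv'
  obtain ⟨d, rfl⟩ := Submodule.mem_span_singleton.mp hu
  exact ⟨ν, hν, c, d, rfl⟩

/-- all products lie in `Rann` -/
theorem sq_le (h : Leib μ) (hN : Nilp μ) (hd : n ≤ finrank ℂ (Rann μ) + 2)
    (x y : Fin n → ℂ) : μ x y ∈ Rann μ := by
  by_contra hw
  have hy : y ∉ Rann μ := by
    intro hy
    apply hw
    rw [hy x]
    exact Submodule.zero_mem _
  by_cases hc : μ x y ∈ Rann μ ⊔ Submodule.span ℂ {y}
  · obtain ⟨ν, hν, u, hu, e⟩ := Submodule.mem_sup.mp hc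
    obtain ⟨c, rfl⟩ := Submodule.mem_span_singleton.mp hu
    have hc0 : c ≠ 0 := by
      rintro rfl
      apply hw
      rw [← e, zero_smul, add_zero]
      exact hν
    apply hy
    refine iter_mem' h hN x y (-c) (neg_ne_zero.mpr hc0) ?_
    have h1 := symm_mem h x y
    have e2 : μ y x - (-c) • y = (μ x y + μ y x) - ν := by
      rw [← e]; module
    rw [e2]
    exact (Rann μ).sub_mem h1 hν
  · obtain ⟨ν, hν, c, d, e⟩ := span_two (Rann μ) hd y (μ x y) hy hc x
    apply hw
    refine iter_mem h hN y (μ x y) d ?_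
    have e2 : μ x y = μ ν y + c • μ y y + d • μ (μ x y) y := by
      conv_lhs => rw [e]
      simp only [map_add, map_smul, LinearMap.add_apply, LinearMap.smul_apply]
    have e3 : μ x y - d • μ (μ x y) y = μ ν y + c • μ y y := sub_eq_of_eq_add e2
    rw [e3]
    exact (Rann μ).add_mem (rann_mul h hν y) ((Rann μ).smul_mem _ (sq_mem h y))

/-- the operators `rm μ y` commute -/
theorem rm_comm (h : Leib μ) (hS : ∀ x y, μ x y ∈ Rann μ) (y z x : Fin n → ℂ) :
    μ (μ x y) z = μ (μ x z) y := by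
  rw [h x y z, hS y z x, add_zero]

theorem case_zero (hn : 2 ≤ n) (h : Leib μ) (hN : Nilp μ) (h0 : ∀ y, y ∈ Rann μ) :
    Defo μ := by
  have hμ : ∀ x y, μ x y = 0 := fun x y => h0 y x
  let i0 : Fin n := ⟨0, by omega⟩
  let i1 : Fin n := ⟨1, by omega⟩
  have hi : i0 ≠ i1 := by
    intro h
    have := congrArg Fin.val h
    simp [i0, i1] at this
  refine defo_of_D h hN (LinearMap.proj i0) (Pi.single i0 1) (by simp)
    ((LinearMap.proj i1).smulRight (Pi.single i1 (1 : ℂ))) (fun x => h0 _) (fun x => ?_)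
    (fun x y => by rw [hμ]; simp) (fun x y _ => by rw [hμ, hμ, map_zero]) ?_
  · simp [hi]
  · rw [LinearMap.trace_smulRight]
    simp

theorem case_one (hn : 2 ≤ n) (h : Leib μ) (hN : Nilp μ) (hS : ∀ x y, μ x y ∈ Rann μ)
    (a : Fin n → ℂ) (ha : a ∉ Rann μ)
    (hspan : ∀ x : Fin n → ℂ, x ∈ Rann μ ⊔ Submodule.span ℂ {a}) : Defo μ := by
  obtain ⟨f, hf, hfk⟩ := Submodule.exists_le_ker_of_notMem ha
  have hfN : ∀ v ∈ Rann μ, f v = 0 := fun v hv => hfk hv
  set lam : (Fin n → ℂ) →ₗ[ℂ] ℂ := (f a)⁻¹ • f with hlam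
  have hla : lam a = 1 := by
    rw [hlam, LinearMap.smul_apply, smul_eq_mul, inv_mul_cancel₀ hf]
  have hlN : ∀ v ∈ Rann μ, lam v = 0 := by
    intro v hv
    rw [hlam, LinearMap.smul_apply, hfN v hv, smul_zero]
  have hker : ∀ y, lam y = 0 → y ∈ Rann μ := by
    intro y hy
    obtain ⟨ν, hν, u, hu, rfl⟩ := Submodule.mem_sup.mp (hspan y)
    obtain ⟨c, rfl⟩ := Submodule.mem_span_singleton.mp hu
    rw [map_add, map_smul, hla, hlN ν hν, zero_add, smul_eq_mul, mul_one] at hy
    rw [hy, zero_smul, add_zero]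
    exact hν
  -- a nonzero element of `Rann μ`
  have hne : ∃ z ∈ Rann μ, z ≠ 0 := by
    by_contra hcon
    push Not at hcon
    have h1 : (⊤ : Submodule ℂ (Fin n → ℂ)) ≤ Submodule.span ℂ {a} := by
      intro y _
      obtain ⟨ν, hν, u, hu, rfl⟩ := Submodule.mem_sup.mp (hspan y)
      rw [hcon ν hν, zero_add]
      exact hu
    have h2 := Submodule.finrank_mono h1
    have h3 := finrank_span_le_card (R := ℂ) ({a} : Set (Fin n → ℂ))
    rw [finrank_top] at h2
    simp at h2 h3
    omega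
  obtain ⟨z, hz, hz0⟩ := hne
  obtain ⟨D, hD1, hD2, hD3⟩ := comm_trace (0 : (Fin n → ℂ) →ₗ[ℂ] (Fin n → ℂ)) ⟨1, by simp⟩
    (Rann μ) (fun x => Submodule.zero_mem _) z hz (by simpa using hz0)
  refine defo_of_D h hN lam a hla D hD1 (fun x => hlN _ (hD1 x)) (fun x y => hlN _ (hS x y))
    (fun x y hy => ?_) hD3
  have hy' := hker y hy
  rw [hy' x, hy' (D x), map_zero]

theorem case_two (hn : 4 ≤ n) (h : Leib μ) (hN : Nilp μ) (hd : n ≤ finrank ℂ (Rann μ) + 2)
    (hS : ∀ x y, μ x y ∈ Rann μ)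
    (a b : Fin n → ℂ) (ha : a ∉ Rann μ) (hb : b ∉ Rann μ ⊔ Submodule.span ℂ {a}) :
    Defo μ := by
  by_cases hex : ∃ f, f ∉ Rann μ ∧ ∃ z ∈ Rann μ, z ∉ LinearMap.range (rm μ f)
  · obtain ⟨f, hf, z, hz, hz'⟩ := hex
    obtain ⟨D, hD1, hD2, hD3⟩ := comm_trace (rm μ f) (rm_nilp hN f) (Rann μ)
      (fun x => hS x f) z hz hz'
    -- a vector independent of `f` modulo `Rann`
    have hg : ∃ g, g ∉ Rann μ ⊔ Submodule.span ℂ {f} := by
      by_contra hcon
      push Not at hcon
      have hl : Rann μ < Rann μ ⊔ Submodule.span ℂ {a} := by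
        refine lt_of_le_of_ne le_sup_left ?_
        intro h
        apply ha
        rw [h]
        exact Submodule.mem_sup_right (Submodule.mem_span_singleton_self a)
      have hl2 : Rann μ ⊔ Submodule.span ℂ {a} < ⊤ := by
        refine lt_of_le_of_ne le_top ?_
        intro h
        apply hb
        rw [h]
        trivial
      have f1 := Submodule.finrank_lt_finrank_of_lt hl
      have f2 := Submodule.finrank_lt_finrank_of_lt hl2
      have h1 : (⊤ : Submodule ℂ (Fin n → ℂ)) ≤ Rann μ ⊔ Submodule.span ℂ {f} :=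
        fun y _ => hcon y
      have h2 := Submodule.finrank_mono h1
      have h3 := Submodule.finrank_add_le_finrank_add_finrank (Rann μ) (Submodule.span ℂ {f})
      have h4 := finrank_span_le_card (R := ℂ) ({f} : Set (Fin n → ℂ))
      simp only [Set.toFinset_singleton, Finset.card_singleton] at h4
      omega
    obtain ⟨g, hg⟩ := hg
    obtain ⟨F, hF, hFk⟩ := Submodule.exists_le_ker_of_notMem hg
    set lam : (Fin n → ℂ) →ₗ[ℂ] ℂ := (F g)⁻¹ • F with hlam
    have hla : lam g = 1 := by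
      rw [hlam, LinearMap.smul_apply, smul_eq_mul, inv_mul_cancel₀ hF]
    have hlN : ∀ v ∈ Rann μ, lam v = 0 := by
      intro v hv
      rw [hlam, LinearMap.smul_apply, hFk (Submodule.mem_sup_left hv), smul_zero]
    have hlf : lam f = 0 := by
      rw [hlam, LinearMap.smul_apply,
        hFk (Submodule.mem_sup_right (Submodule.mem_span_singleton_self f)), smul_zero]
    have hspan := span_two (Rann μ) hd f g hf hg
    refine defo_of_D h hN lam g hla D hD1 (fun x => hlN _ (hD1 x))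
      (fun x y => hlN _ (hS x y)) (fun x y hy => ?_) hD3
    obtain ⟨ν, hν, c, d, rfl⟩ := hspan y
    rw [map_add, map_add, map_smul, map_smul, hla, hlf, hlN ν hν, smul_zero, zero_add, zero_add,
      smul_eq_mul, mul_one] at hy
    rw [hy, zero_smul, add_zero]
    have h1 := hD2 x
    rw [rm_apply, rm_apply] at h1
    simp only [map_add, map_smul, hν x, hν (D x), zero_add, h1]
  · push Not at hex
    exfalso
    have hr : ∀ f, f ∉ Rann μ → ∀ v ∈ Rann μ, ∃ x, μ x f = v := by
      intro f hf v hv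
      obtain ⟨x, hx⟩ := hex f hf v hv
      exact ⟨x, hx⟩
    have hb' : b ∉ Rann μ := fun hb' => hb (Submodule.mem_sup_left hb')
    have h1 : finrank ℂ (Rann μ) ≤ 1 := by
      refine pencil (rm μ a) (rm μ b) (rm_nilp hN a) (fun x => rm_comm h hS b a x) (Rann μ) a b
        (span_two (Rann μ) hd a b ha hb) (fun x => hS x a) (hr a ha) (fun x => hS x b)
        (hr b hb') ?_
      intro s v hv
      have hbs : b - s • a ∉ Rann μ := by
        intro hcon
        apply hb
        have e : b = (b - s • a) + s • a := by abel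
        rw [e]
        exact Submodule.add_mem _ (Submodule.mem_sup_left hcon)
          (Submodule.mem_sup_right (Submodule.smul_mem _ _ (Submodule.mem_span_singleton_self a)))
      obtain ⟨x, hx⟩ := hr _ hbs v hv
      refine ⟨x, ?_⟩
      rw [rm_apply, rm_apply, ← hx, map_sub, map_smul]
    omega

/-- MAIN: `dim A / Rann(A) ≤ 2`, `n ≥ 4` -/
theorem defo_codim_two (hn : 4 ≤ n) (h : Leib μ) (hN : Nilp μ)
    (hd : n ≤ finrank ℂ (Rann μ) + 2) : Defo μ := by
  have hS := sq_le h hN hd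
  by_cases h0 : ∀ y, y ∈ Rann μ
  · exact case_zero (by omega) h hN h0
  · push Not at h0
    obtain ⟨a, ha⟩ := h0
    by_cases h1 : ∀ x : Fin n → ℂ, x ∈ Rann μ ⊔ Submodule.span ℂ {a}
    · exact case_one (by omega) h hN hS a ha h1
    · push Not at h1
      obtain ⟨b, hb⟩ := h1
      exact case_two hn h hN hd hS a b ha hb

/-- left normed products -/
noncomputable def lp (μ : Alg n) (x : ℕ → (Fin n → ℂ)) : ℕ → (Fin n → ℂ)
  | 0 => x 0
  | (i + 1) => μ (lp μ x i) (x (i + 1))

theorem lp_congr (μ : Alg n) (x x' : ℕ → (Fin n → ℂ)) (k : ℕ) (h : ∀ i ≤ k, x i = x' i) :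
    lp μ x k = lp μ x' k := by
  induction k with
  | zero => exact h 0 le_rfl
  | succ k ih =>
    simp only [lp]
    rw [ih (fun i hi => h i (by omega)), h (k + 1) le_rfl]

theorem lp_extend (μ : Alg n) (x : ℕ → (Fin n → ℂ)) (k : ℕ) (w : Fin n → ℂ) :
    ∃ x', lp μ x' (k + 1) = μ (lp μ x k) w := by
  refine ⟨fun i => if i = k + 1 then w else x i, ?_⟩
  simp only [lp, if_true]
  rw [lp_congr μ _ x k (fun i hi => by rw [if_neg (by omega)])]

theorem nilp_lp (h : Nilp μ) : ∃ m, ∀ x, lp μ x m = 0 := by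
  obtain ⟨m, hm⟩ := h
  exact ⟨m, fun x => hm x (lp μ x) rfl (fun i => rfl)⟩

/-- a functional vanishing on all products -/
theorem exists_lam (hn : 1 ≤ n) (hN : Nilp μ) :
    ∃ f : (Fin n → ℂ) →ₗ[ℂ] ℂ, f ≠ 0 ∧ ∀ x y, f (μ x y) = 0 := by
  by_contra hcon
  push Not at hcon
  set S : Submodule ℂ (Fin n → ℂ) := Submodule.span ℂ {v | ∃ x y, v = μ x y} with hS
  have hST : S = ⊤ := by
    by_contra hne
    obtain ⟨f, hf, hk⟩ := Submodule.exists_le_ker_of_lt_top S (lt_top_iff_ne_top.mpr hne)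
    obtain ⟨x, y, hxy⟩ := hcon f hf
    exact hxy (hk (Submodule.subset_span ⟨x, y, rfl⟩))
  have hk : ∀ k : ℕ, ∀ v : Fin n → ℂ, v ∈ Submodule.span ℂ {v | ∃ x, v = lp μ x k} := by
    intro k
    induction k with
    | zero =>
      intro v
      exact Submodule.subset_span ⟨fun _ => v, rfl⟩
    | succ k ih =>
      have h2 : ∀ a b : Fin n → ℂ, μ a b ∈ Submodule.span ℂ {v | ∃ x, v = lp μ x (k + 1)} := by
        intro a b
        have ha := ih a
        refine Submodule.span_induction (p := fun a _ => μ a b ∈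
          Submodule.span ℂ {v | ∃ x, v = lp μ x (k + 1)}) ?_ ?_ ?_ ?_ ha
        · rintro a ⟨x, rfl⟩
          obtain ⟨x', hx'⟩ := lp_extend μ x k b
          exact Submodule.subset_span ⟨x', hx'.symm⟩
        · rw [map_zero, LinearMap.zero_apply]; exact Submodule.zero_mem _
        · intro u v _ _ hu hv
          rw [map_add, LinearMap.add_apply]
          exact Submodule.add_mem _ hu hv
        · intro c u _ hu
          rw [map_smul, LinearMap.smul_apply]
          exact Submodule.smul_mem _ c hu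
      intro v
      have hv : v ∈ S := by rw [hST]; trivial
      refine Submodule.span_induction (p := fun v _ => v ∈
          Submodule.span ℂ {v | ∃ x, v = lp μ x (k + 1)}) ?_ ?_ ?_ ?_ hv
      · rintro v ⟨x, y, rfl⟩
        exact h2 x y
      · exact Submodule.zero_mem _
      · intro u v _ _ hu hv
        exact Submodule.add_mem _ hu hv
      · intro c u _ hu
        exact Submodule.smul_mem _ c hu
  obtain ⟨m, hm⟩ := nilp_lp hN
  have h0 : ∀ v : Fin n → ℂ, v = 0 := by
    intro v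
    have h1 := hk m v
    have h2 : {v : Fin n → ℂ | ∃ x, v = lp μ x m} ⊆ {0} := by
      rintro v ⟨x, rfl⟩
      exact hm x
    have h3 := Submodule.span_mono h2 h1
    rw [Submodule.span_zero_singleton] at h3
    exact (Submodule.mem_bot ℂ).mp h3
  have h4 := h0 (fun _ => 1)
  have h5 := congrFun h4 ⟨0, hn⟩
  simp at h5

/-- a nonzero element `z` with `zA = 0`, in the kernel of some nonzero functional that vanishes
on all products -/
theorem exists_z (hn : 2 ≤ n) (hN : Nilp μ) :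
    ∃ z : Fin n → ℂ, z ≠ 0 ∧ (∀ w, μ z w = 0) ∧
      ∃ f : (Fin n → ℂ) →ₗ[ℂ] ℂ, f ≠ 0 ∧ f z = 0 ∧ ∀ x y, f (μ x y) = 0 := by
  classical
  have hex := nilp_lp hN
  set m := Nat.find hex with hm
  have hm1 : ∀ x, lp μ x m = 0 := Nat.find_spec hex
  have hm0 : m ≠ 0 := by
    intro h0
    have h1 := hm1 (fun _ _ => 1)
    rw [h0] at h1
    have h2 := congrFun h1 ⟨0, by omega⟩
    simp [lp] at h2
  obtain ⟨l, hl⟩ := Nat.exists_eq_succ_of_ne_zero hm0
  have hmin := Nat.find_min hex (m := l) (by omega)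
  push Not at hmin
  obtain ⟨x, hx⟩ := hmin
  have hz : ∀ w, μ (lp μ x l) w = 0 := by
    intro w
    obtain ⟨x', hx'⟩ := lp_extend μ x l w
    rw [← hx']
    have := hm1 x'
    rwa [hl] at this
  rcases Nat.eq_zero_or_pos l with h0 | h0
  · -- `μ = 0`
    have hμ : ∀ a b, μ a b = 0 := by
      intro a b
      have := hm1 (fun i => if i = 0 then a else b)
      rw [hl, h0] at this
      simpa [lp] using this
    refine ⟨Pi.single ⟨1, by omega⟩ 1, ?_, fun w => hμ _ _, LinearMap.proj ⟨0, by omega⟩, ?_, ?_,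
      fun a b => by rw [hμ]; simp⟩
    · intro h
      have := congrFun h ⟨1, by omega⟩
      simp at this
    · intro h
      have := LinearMap.congr_fun h (fun _ => 1)
      simp at this
    · simp
  · obtain ⟨l', rfl⟩ := Nat.exists_eq_succ_of_ne_zero h0.ne'
    obtain ⟨f, hf, hf'⟩ := exists_lam (by omega) hN
    exact ⟨lp μ x l'.succ, hx, hz, f, hf, hf' _ _, hf'⟩

/-- nilpotent Lie algebras of dimension `≥ 2` have non-Lie deformations -/
theorem lie_case (hn : 2 ≤ n) (h : Leib μ) (hN : Nilp μ) (hA : ∀ x, μ x x = 0) :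
    ∃ θ : Alg n, (∀ t : ℂ, Leib (μ + t • θ)) ∧
      ∀ t : ℂ, t ≠ 0 → ∃ x, (μ + t • θ) x x ≠ 0 := by
  have hanti : ∀ x y, μ x y = - μ y x := by
    intro x y
    have h1 := hA (x + y)
    simp only [map_add, LinearMap.add_apply, hA x, hA y, zero_add, add_zero] at h1
    rw [add_comm] at h1
    exact eq_neg_of_add_eq_zero_left h1
  obtain ⟨z, hz0, hz, f, hf, hfz, hfm⟩ := exists_z hn hN
  have hz' : ∀ w, μ w z = 0 := fun w => by rw [hanti, hz, neg_zero]
  obtain ⟨e, he⟩ : ∃ e, f e ≠ 0 := by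
    by_contra hcon
    push Not at hcon
    exact hf (LinearMap.ext hcon)
  set lam : (Fin n → ℂ) →ₗ[ℂ] ℂ := (f e)⁻¹ • f with hlam
  have hla : lam e = 1 := by
    rw [hlam, LinearMap.smul_apply, smul_eq_mul, inv_mul_cancel₀ he]
  have hlz : lam z = 0 := by rw [hlam, LinearMap.smul_apply, hfz, smul_zero]
  have hlm : ∀ x y, lam (μ x y) = 0 := fun x y => by
    rw [hlam, LinearMap.smul_apply, hfm, smul_zero]
  refine ⟨tw lam (lam.smulRight z), leib_deform h lam e hla _ ?_ ?_ hlm ?_, ?_⟩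
  · intro x w
    rw [LinearMap.smulRight_apply, map_smul, hz', smul_zero]
  · intro x
    rw [LinearMap.smulRight_apply, map_smul, hlz, smul_zero]
  · intro x y _
    rw [LinearMap.smulRight_apply, LinearMap.smulRight_apply, hlm, zero_smul, map_smul,
      LinearMap.smul_apply, hz, smul_zero]
  · intro t ht
    refine ⟨e, ?_⟩
    rw [LinearMap.add_apply, LinearMap.add_apply, LinearMap.smul_apply, LinearMap.smul_apply,
      tw_apply, hA, zero_add, LinearMap.smulRight_apply, hla, one_smul, one_smul]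
    exact smul_ne_zero ht hz0

theorem lie_not_rigid (hn : 2 ≤ n) (h : Leib μ) (hN : Nilp μ) (hA : ∀ x, μ x x = 0) :
    ¬ Rigid μ := by
  obtain ⟨θ, h1, h2⟩ := lie_case hn h hN hA
  refine not_rigid_of_line μ θ h h1 fun t ht hI => ?_
  obtain ⟨x, hx⟩ := h2 t ht
  obtain ⟨g, hg⟩ := hI
  apply hx
  have h3 := hg (g.symm x) (g.symm x)
  rw [hA, map_zero] at h3
  simpa using h3

end Pool.H3VG
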